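import Mathlib
import Pool.Agent.H.MP_432bca_pr.B

open MeasureTheory ProbabilityTheory Finset

namespace Pool.Agent.Results.MP_432bca_pr.Nonsing

variable {Ω : Type} [MeasurableSpace Ω] (P : Measure Ω) {n : ℕ}

/-- The probability generating function. -/
noncomputable def G (Y : Ω → ℤ) (s : ℂ) : ℂ := ∫ ω, s ^ Y ω ∂P

/-- The indices of the variables summed in the weight of block `j`. -/
def A (j : Fin (n + 1)) : Finset (Fin (n + 1)) :=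
  if j = Fin.last n then ∅ else insert (Fin.last n) (Iio j)

noncomputable def phi (X : Fin (n + 1) → Ω → ℤ) (m : Fin (n + 1) → ℤ) (j : Fin (n + 1))
    (c : ℕ) (s : ℂ) : ℂ :=
  s ^ m j * G P (∑ i ∈ A j, X i) s *
    ∑ r ∈ range ((-m j).toNat - c), s ^ (r + c) * P.real {ω | X j ω ≤ m j + r}

noncomputable def nu (X : Fin (n + 1) → Ω → ℤ) (m : Fin (n + 1) → ℤ) (j : Fin (n + 1))
    (c : ℕ) : ℂ := ∑ r ∈ range ((-m j).toNat - c), (P.real {ω | X j ω ≤ m j + r} : ℂ)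

/-- Pairs (zero of `g`, order of derivative). -/
abbrev Row (g : ℂ → ℂ) : Type := {p : ℂ × ℕ // ‖p.1‖ ≤ 1 ∧ p.1 ≠ 0 ∧ p.1 ≠ 1 ∧ g p.1 = 0 ∧
  (p.2 = 0 ∨ ‖p.1‖ < 1 ∧ (p.2 : ℕ∞) < analyticOrderAt g p.1)}

theorem result [IsProbabilityMeasure P] (X : Fin (n + 1) → Ω → ℤ) (m : Fin (n + 1) → ℤ)
    (hX : ∀ j, Measurable (X j)) (ind : iIndepFun X P)
    (hm : ∀ j, IsLeast {x | P {ω | X j ω = x} ≠ 0} (m j)) (hm1 : ∀ j, m j ≤ 0) (hm0 : ∑ j, m j < 0)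
    (hi : ∀ j, Integrable (fun ω => (X j ω : ℝ)) P) (hS : ∫ ω, ∑ j, (X j ω : ℝ) ∂P < 0) :
    LinearIndependent ℂ fun (i : Option (Row fun s => G P (∑ j, X j) s - 1))
      (c : Σ j, Fin (-m j).toNat) =>
      i.elim (nu P X m c.1 c.2) fun p => iteratedDeriv p.1.2 (phi P X m c.1 c.2) p.1.1 :=
  Pool.Agent.H.MP_432bca_pr.main hX hm hm1 ind hm0 hi hS

end Pool.Agent.Results.MP_432bca_pr.Nonsing
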